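import Pool.Agent.H83.TU.RF
import Pool.Agent.H83.TU.PF3
import Pool.Agent.H20.TU.CHT

/-!
# Theorem U (MP_e49dc9_ag), part [A]: the properties of the functional `R_F` (complete)

`F` a field between `k` and `K` with `trdeg K / F = 1`, `RF hX hg F D = ∑ p, ord p (D.eq (cen p)) * deg p`
(`H83/TU/RF.lean`).
* `fg_K`, `fg_F`: `K` is finitely generated over `k` and over `F`.
* `rf_fin`: the support of the sum is finite.
* `rf_mul`, `rf_one`, `rf_inv`, `rf_pow`, `rf_zpow`, `rf_prin`, `rf_eff`.
* `rf_pos`: an effective divisor whose local equation is not a unit at the centre of `p` has `deg p ≤ R_F`.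
* `rf_cen`: for a nonempty affine open set some place has its centre outside; `rf_amp`: ample divisors are positive.
* `rfun`: the structure `RFun`; `rf_zero`: if all `A * D ^ n` are nonnegative then `R_F D = 0`; `rf_num`: numerically
  trivial divisors.
-/

set_option autoImplicit false

namespace Pool.Agent.H32.TU

open Pool.Agent.H54.RV Pool.Agent.H83.TU Pool.Agent.H20.TU IntermediateField

variable {k K : Type} [Field k] [Field K] [Algebra k K] {X : Mod k K}

/-- the function field is finitely generated over the base field -/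
theorem fg_K (hX : IsVar X) (hg : ∃ g, Gen X g) : Algebra.EssFiniteType k K := by
  obtain ⟨g, hg⟩ := hg
  obtain ⟨e, -⟩ := genE hg
  have h1 : Algebra.EssFiniteType k (X.kap g) := fg_top_iff.1 (kap_fg hX g)
  exact Algebra.EssFiniteType.of_surjective e.symm.toAlgHom e.symm.surjective

/-- the function field is finitely generated over a field of constants -/
theorem fg_F (hX : IsVar X) (hg : ∃ g, Gen X g) (F : IntermediateField k K) :
    (⊤ : IntermediateField F K).FG := by
  have h1 : Algebra.EssFiniteType k K := fg_K hX hg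
  have h2 : Algebra.EssFiniteType F K := Algebra.EssFiniteType.of_comp k F K
  exact fg_top_iff.2 h2

section

variable [CharZero k] (hX : IsVar X) (hg : ∃ g, Gen X g) (F : IntermediateField k K)

theorem charF : CharZero F := charZero_of_injective_algebraMap (algebraMap k F).injective

theorem rf_fin0 (htr : Algebra.trdeg F K = 1) (D : Cart X) :
    {p : Place F K | p.ord (D.eq (cenK hX hg (down p))) ≠ 0}.Finite := by
  classical
  have hF : CharZero F := charF F
  have hc : CompactSpace X.P := hX.comp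
  choose U hU hxU hun using D.loc
  obtain ⟨t, ht⟩ := (isCompact_univ (X := X.P)).elim_finite_subcover U hU
    (fun x _ => Set.mem_iUnion.2 ⟨x, hxU x⟩)
  refine (t.finite_toSet.biUnion (t := fun x => {p : Place F K | p.ord (D.eq x) ≠ 0})
    (fun x _ => fin_ordD htr (fg_F hX hg F) (D.eq x) (D.ne x))).subset ?_
  intro p hp
  have h1 : cenK hX hg (down p) ∈ ⋃ i ∈ t, U i := ht (Set.mem_univ _)
  rw [Set.mem_iUnion₂] at h1 ⊢
  obtain ⟨x, hx, hcx⟩ := h1
  refine ⟨x, hx, ?_⟩
  have h2 := ord_loc hX hg D (down p) x (U x) (hun x) hcx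
  have h3 : p.ord (D.eq (cenK hX hg (down p))) = p.ord (D.eq x) := h2
  show p.ord (D.eq x) ≠ 0
  rw [← h3]
  exact hp

/-- the support of the sum `RF` is finite -/
theorem rf_fin (htr : Algebra.trdeg F K = 1) (D : Cart X) :
    (Function.support fun p : Place F K =>
      p.ord (D.eq (cenK hX hg (down p))) * (deg p : ℤ)).Finite := by
  refine (rf_fin0 hX hg F htr D).subset fun p hp => ?_
  exact left_ne_zero_of_mul hp

theorem rf_mul (htr : Algebra.trdeg F K = 1) (D E : Cart X) :
    RF hX hg F (D * E) = RF hX hg F D + RF hX hg F E := by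
  unfold RF
  rw [← finsum_add_distrib (rf_fin hX hg F htr D) (rf_fin hX hg F htr E)]
  refine finsum_congr fun p => ?_
  rw [mul_eq, ord_mul p _ _ (D.ne _) (E.ne _), add_mul]

theorem rf_one : RF hX hg F (1 : Cart X) = 0 := by
  unfold RF
  rw [← finsum_zero (α := Place F K)]
  refine finsum_congr fun p => ?_
  rw [one_eq, ord_one, zero_mul]

theorem rf_inv (htr : Algebra.trdeg F K = 1) (D : Cart X) :
    RF hX hg F D⁻¹ = - RF hX hg F D := by
  have h1 := rf_mul hX hg F htr D D⁻¹
  rw [mul_inv_cancel, rf_one] at h1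
  omega

theorem rf_pow (htr : Algebra.trdeg F K = 1) (D : Cart X) (n : ℕ) :
    RF hX hg F (D ^ n) = n * RF hX hg F D := by
  induction n with
  | zero => rw [pow_zero, rf_one, Nat.cast_zero, zero_mul]
  | succ n ih =>
    rw [pow_succ, rf_mul hX hg F htr, ih]
    push_cast
    ring

theorem rf_zpow (htr : Algebra.trdeg F K = 1) (D : Cart X) (n : ℤ) :
    RF hX hg F (D ^ n) = n * RF hX hg F D := by
  obtain ⟨m, rfl | rfl⟩ := n.eq_nat_or_neg
  · rw [zpow_natCast, rf_pow hX hg F htr]
  · rw [zpow_neg, zpow_natCast, rf_inv hX hg F htr, rf_pow hX hg F htr]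
    ring

theorem rf_prin (htr : Algebra.trdeg F K = 1) (f : K) (hf : f ≠ 0) :
    RF hX hg F (prin X f hf) = 0 := by
  have hF : CharZero F := charF F
  exact sum_ordD htr (fg_F hX hg F) f hf

/-- effective divisors have nonnegative orders -/
theorem eff_ord (D : Cart X) (hD : Effective D) (p : Place F K) :
    0 ≤ p.ord (D.eq (cenK hX hg (down p))) := by
  rw [ord_nonneg p _ (D.ne _)]
  exact cenK_le hX hg (down p) _ (hD _)

theorem rf_eff (D : Cart X) (hD : Effective D) : 0 ≤ RF hX hg F D :=
  finsum_nonneg fun p => mul_nonneg (eff_ord hX hg F D hD p) (Int.natCast_nonneg _)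

/-- the local equation of an effective divisor is not a unit at the centre of `p`: its order is positive -/
theorem eff_pos (D : Cart X) (hD : Effective D) (p : Place F K)
    (h : (D.eq (cenK hX hg (down p)))⁻¹ ∉ X.O (cenK hX hg (down p))) :
    0 < p.ord (D.eq (cenK hX hg (down p))) := by
  have h1 := eff_ord hX hg F D hD p
  have h2 := cenK_dom hX hg (down p) _ (hD (cenK hX hg (down p)))
  rcases h1.lt_or_eq with h3 | h3
  · exact h3
  · exfalso
    apply h
    apply h2.2 (D.ne _)
    exact ((ord_eq_zero p _ (D.ne _)).1 h3.symm).2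

theorem rf_pos (htr : Algebra.trdeg F K = 1) (D : Cart X) (hD : Effective D) (p : Place F K)
    (h : (D.eq (cenK hX hg (down p)))⁻¹ ∉ X.O (cenK hX hg (down p))) : (deg p : ℤ) ≤ RF hX hg F D := by
  have h1 := eff_pos hX hg F D hD p h
  have h2 := single_le_finsum p (rf_fin hX hg F htr D)
    (fun q => mul_nonneg (eff_ord hX hg F D hD q) (Int.natCast_nonneg _))
  refine le_trans ?_ h2
  have h3 : (0 : ℤ) ≤ deg p := Int.natCast_nonneg _
  nlinarith

/-- some place over `F` has its centre outside of a given affine open set -/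
theorem rf_cen (htr : Algebra.trdeg F K = 1) (U : Set X.P) (hU : X.aff U) (hne : U.Nonempty) :
    ∃ p : Place F K, cenK hX hg (down p) ∉ U := by
  by_contra hcon
  push Not at hcon
  have hF : CharZero F := charF F
  have h1 : ∀ a ∈ X.sec U, IsAlgebraic F a := by
    intro a ha
    by_contra h2
    obtain ⟨p, hp⟩ := exists_pole htr (fg_F hX hg F) a h2
    have h3 : a ∈ X.O (cenK hX hg (down p)) := (mem_sec U a).1 ha _ (hcon p)
    have h4 : a ∈ (down p).R := cenK_le hX hg (down p) a h3
    have ha0 : a ≠ 0 := by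
      rintro rfl
      exact h2 isAlgebraic_zero
    have h5 : 0 ≤ p.ord a := (ord_nonneg p a ha0).2 h4
    omega
  have h2 : Algebra.IsAlgebraic F K := by
    constructor
    intro x
    obtain ⟨s, hs, hs0, hxs⟩ := sec_frac hX hg U hU hne x
    have h3 : x = (x * s) * s⁻¹ := by
      rw [mul_assoc, mul_inv_cancel₀ hs0, mul_one]
    rw [h3]
    exact (h1 _ hxs).mul (h1 s hs).inv
  have h3 : Algebra.trdeg F K = 0 := trdeg_eq_zero
  rw [htr] at h3
  exact one_ne_zero h3

theorem rf_amp (htr : Algebra.trdeg F K = 1) (D : Cart X) (hD : Ample D) : 0 < RF hX hg F D := by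
  have hF : CharZero F := charF F
  obtain ⟨x⟩ := hX.ne
  obtain ⟨n, hn, s, hs, hx, hU⟩ := hD x
  have h1 : Un (X.O x) (s * D.eq x ^ n) := hx
  have hs0 : s ≠ 0 := left_ne_zero_of_mul h1.1
  have hE : Effective (prin X s hs0 * D ^ n) := by
    intro y
    rw [mul_eq, pow_eq]
    exact hs y
  obtain ⟨p, hp⟩ := rf_cen hX hg F htr (nz D n s) hU ⟨x, hx⟩
  have h2 := rf_pos hX hg F htr _ hE p (fun h3 => hp ⟨?_, ?_, ?_⟩)
  · rw [rf_mul hX hg F htr, rf_prin hX hg F htr, zero_add, rf_pow hX hg F htr] at h2
    have h3 : (0 : ℤ) < deg p := by exact_mod_cast deg_pos htr (fg_F hX hg F) p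
    have h4 : (0 : ℤ) < n * RF hX hg F D := lt_of_lt_of_le h3 h2
    have hn' : (0 : ℤ) < n := by exact_mod_cast hn
    exact (mul_pos_iff_of_pos_left hn').1 h4
  · exact mul_ne_zero hs0 (pow_ne_zero _ (D.ne _))
  · exact hs _
  · rw [mul_eq, pow_eq] at h3
    exact h3

theorem rfun (htr : Algebra.trdeg F K = 1) : RFun (RF hX hg F) :=
  ⟨rf_mul hX hg F htr, rf_eff hX hg F, rf_amp hX hg F htr⟩

/-- if all `A * D ^ n` are nonnegative then `D` has the value zero -/
theorem rf_zero (htr : Algebra.trdeg F K = 1) (A D : Cart X)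
    (h : ∀ n : ℤ, 0 ≤ RF hX hg F (A * D ^ n)) : RF hX hg F D = 0 := by
  have h1 : ∀ n : ℤ, 0 ≤ RF hX hg F A + n * RF hX hg F D := by
    intro n
    rw [← rf_zpow hX hg F htr, ← rf_mul hX hg F htr]
    exact h n
  have h2 := h1 (RF hX hg F A + 1)
  have h3 := h1 (-(RF hX hg F A + 1))
  have h4 := h1 0
  nlinarith

omit [CharZero k] in
theorem num_pow (D : Cart X) (hD : NumZ D) (A : Cart X) (hA : Ample A) (n : ℤ) :
    Ample (A * D ^ n) := by
  have key : ∀ (m : ℕ), Ample (A * D ^ m) ∧ Ample (A * D⁻¹ ^ m) := by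
    intro m
    induction m with
    | zero => rw [pow_zero, pow_zero, mul_one]; exact ⟨hA, hA⟩
    | succ m ih =>
      refine ⟨?_, ?_⟩
      · rw [pow_succ, ← mul_assoc]
        exact (hD _ ih.1).1
      · rw [pow_succ, ← mul_assoc]
        exact (hD _ ih.2).2
  obtain ⟨m, rfl | rfl⟩ := n.eq_nat_or_neg
  · rw [zpow_natCast]
    exact (key m).1
  · rw [zpow_neg, zpow_natCast, ← inv_pow]
    exact (key m).2

/-- numerically trivial divisors -/
theorem rf_num (htr : Algebra.trdeg F K = 1) (hA : ∃ A : Cart X, Ample A) (D : Cart X)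
    (hD : NumZ D) : RF hX hg F D = 0 := by
  obtain ⟨A, hA⟩ := hA
  exact rf_zero hX hg F htr A D fun n => (rf_amp hX hg F htr _ (num_pow D hD A hA n)).le

end

end Pool.Agent.H32.TU
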