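import Pool.Agent.H83.TU.Base
import Pool.Agent.H54.RV.A5

/-!
# Theorem U (MP_e49dc9_ag), part [A]: residue fields of the places of a Dedekind domain (complete)

* `plP_res`: the residue field of the place of a nonzero prime `P` of the Dedekind domain `B` is `B / P`.
* `ord_alg`: elements which are algebraic over the base field have order `0`.
-/

set_option autoImplicit false

namespace Pool.Agent.H32.TU

open Pool.Agent.H54.RV Pool.Agent.H83.TU IsDedekindDomain

variable {k κ B : Type} [Field k] [Field κ] [Algebra k κ] [CommRing B] [IsDedekindDomain B]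
  [Algebra k B] [Algebra B κ] [IsFractionRing B κ] [IsScalarTower k B κ]

/-- the inclusion of a Dedekind domain in the valuation ring of a place -/
noncomputable def incl (k : Type) {κ B : Type} [Field k] [Field κ] [Algebra k κ] [CommRing B]
    [IsDedekindDomain B] [Algebra k B] [Algebra B κ] [IsFractionRing B κ] [IsScalarTower k B κ]
    (P : HeightOneSpectrum B) : B →ₐ[k] (plP k (κ := κ) P).R where
  toFun b := ⟨algebraMap B κ b, by
    rw [plP_R, Valuation.mem_valuationSubring_iff]
    exact P.valuation_le_one _⟩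
  map_one' := Subtype.ext (map_one _)
  map_mul' _ _ := Subtype.ext (map_mul _ _ _)
  map_zero' := Subtype.ext (map_zero _)
  map_add' _ _ := Subtype.ext (map_add _ _ _)
  commutes' c := Subtype.ext (IsScalarTower.algebraMap_apply k B κ c).symm

theorem incl_coe (P : HeightOneSpectrum B) (b : B) :
    ((incl k (κ := κ) P b : (plP k (κ := κ) P).R) : κ) = algebraMap B κ b := rfl

theorem mem_max {k κ : Type} [Field k] [Field κ] [Algebra k κ] (p : Place k κ) (a : p.R)
    (ha : (a : κ) ≠ 0) : a ∈ IsLocalRing.maximalIdeal p.R ↔ 0 < p.ord (a : κ) := by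
  rw [IsLocalRing.mem_maximalIdeal, mem_nonunits_iff]
  have h0 : 0 ≤ p.ord (a : κ) := (ord_nonneg p _ ha).2 a.2
  constructor
  · intro h
    by_contra h1
    apply h
    have h2 : p.ord (a : κ) = 0 := by omega
    obtain ⟨h3, h4⟩ := (ord_eq_zero p _ ha).1 h2
    exact IsUnit.of_mul_eq_one ⟨(a : κ)⁻¹, h4⟩ (Subtype.ext (mul_inv_cancel₀ ha))
  · intro h1 h2
    obtain ⟨c, hc⟩ := h2.exists_right_inv
    have hc' : (a : κ) * (c : κ) = 1 := congrArg (fun z : p.R => (z : κ)) hc
    have h3 : (a : κ)⁻¹ ∈ p.R := by
      rw [inv_eq_of_mul_eq_one_right hc']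
      exact c.2
    have h4 := (ord_eq_zero p _ ha).2 ⟨a.2, h3⟩
    omega

/-- the residue field of the place of `P` is `B / P` -/
theorem plP_res (P : HeightOneSpectrum B) :
    Nonempty ((B ⧸ P.asIdeal) ≃ₐ[k] IsLocalRing.ResidueField (plP k (κ := κ) P).R) := by
  let ψ : B →ₐ[k] IsLocalRing.ResidueField (plP k (κ := κ) P).R :=
    (IsScalarTower.toAlgHom k (plP k (κ := κ) P).R
      (IsLocalRing.ResidueField (plP k (κ := κ) P).R)).comp (incl k P)
  have hψ : ∀ b, ψ b = IsLocalRing.residue _ (incl k P b) := fun b => rfl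
  have hker : RingHom.ker ψ = P.asIdeal := by
    ext b
    rw [RingHom.mem_ker]
    show ψ b = 0 ↔ _
    rw [hψ, IsLocalRing.residue_eq_zero_iff]
    by_cases hb : b = 0
    · subst hb
      simp
    · have hb' : algebraMap B κ b ≠ 0 := by
        rw [ne_eq, FaithfulSMul.algebraMap_eq_zero_iff]
        exact hb
      rw [mem_max _ _ (by rw [incl_coe]; exact hb'), incl_coe]
      exact plP_pos P b hb
  have hsurj : Function.Surjective ψ := by
    intro y
    obtain ⟨a, rfl⟩ := IsLocalRing.residue_surjective y
    have ha : P.valuation κ (a : κ) ≤ 1 := by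
      have h1 : (a : κ) ∈ (plP k (κ := κ) P).R := a.2
      exact (Valuation.mem_valuationSubring_iff _ _).1 h1
    obtain ⟨n, d, hnd⟩ := HeightOneSpectrum.exists_primeCompl_mul_eq_of_integer _ (a : κ) ha
    have hd : (d : B) ∉ P.asIdeal := d.2
    have hd0 : algebraMap B κ d ≠ 0 := by
      rw [ne_eq, FaithfulSMul.algebraMap_eq_zero_iff]
      intro h
      apply hd
      rw [h]
      exact P.asIdeal.zero_mem
    have hmax : P.asIdeal.IsMaximal := P.isMaximal
    obtain ⟨e, he⟩ : ∃ e : B, (1 : B) - d * e ∈ P.asIdeal := by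
      have h1 := Ideal.IsMaximal.exists_inv hmax hd
      obtain ⟨e, i, hi, h2⟩ := h1
      refine ⟨e, ?_⟩
      rw [← h2]
      have : e * (d : B) + i - d * e = i := by ring
      rw [this]
      exact hi
    refine ⟨n * e, ?_⟩
    rw [hψ, ← sub_eq_zero, ← map_sub, IsLocalRing.residue_eq_zero_iff]
    have h3 : (incl k P d : (plP k (κ := κ) P).R) * (incl k P (n * e) - a) =
        - (incl k P n * incl k P ((1 : B) - d * e)) := by
      apply Subtype.ext
      show algebraMap B κ d * (algebraMap B κ (n * e) - (a : κ)) =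
        - (algebraMap B κ n * algebraMap B κ (1 - d * e))
      rw [map_mul, map_sub, map_mul, map_one]
      have h4 : (a : κ) * algebraMap B κ d = algebraMap B κ n := hnd
      linear_combination -h4
    have h5 : incl k P ((1 : B) - d * e) ∈ IsLocalRing.maximalIdeal (plP k (κ := κ) P).R := by
      rw [← IsLocalRing.residue_eq_zero_iff, ← hψ]
      have : ((1 : B) - d * e) ∈ RingHom.ker ψ := by
        rw [hker]
        exact he
      exact this
    have h6 : (incl k P d : (plP k (κ := κ) P).R) * (incl k P (n * e) - a) ∈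
        IsLocalRing.maximalIdeal (plP k (κ := κ) P).R := by
      rw [h3]
      exact neg_mem (Ideal.mul_mem_left _ _ h5)
    have hp : (IsLocalRing.maximalIdeal (plP k (κ := κ) P).R).IsPrime := inferInstance
    rcases hp.mem_or_mem h6 with h7 | h7
    · exfalso
      have h8 : ψ (d : B) = 0 := by
        rw [hψ]
        exact (IsLocalRing.residue_eq_zero_iff _).2 h7
      exact hd ((SetLike.ext_iff.1 hker (d : B)).1 h8)
    · exact h7
  exact ⟨(Ideal.quotientEquivAlgOfEq k hker.symm).trans
    (Ideal.quotientKerAlgEquivOfSurjective hsurj)⟩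

/-- elements which are algebraic over the base field have order `0` -/
theorem ord_alg {k κ : Type} [Field k] [Field κ] [Algebra k κ] (p : Place k κ) (a : κ)
    (ha : a ≠ 0) (h : IsAlgebraic k a) : p.ord a = 0 := by
  have key : ∀ a : κ, IsAlgebraic k a → a ∈ p.R := by
    intro a h
    have h1 : IsIntegral k a := h.isIntegral
    have h2 : IsIntegral p.R a := h1.tower_top
    obtain ⟨y, hy⟩ := IsIntegrallyClosed.isIntegral_iff.1 h2
    rw [← hy]
    exact y.2
  rw [ord_eq_zero p a ha]
  exact ⟨key a h, key _ h.inv⟩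

end Pool.Agent.H32.TU
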